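import Mathlib

/-!
Range strongly exposing operators and M-ideals (MP_88a444_an).
-/

set_option autoImplicit false

open Set Filter Topology

namespace KS6_63.RSE

universe u v w

section core
variable {𝕜 : Type} {X : Type u} {Y : Type v} [RCLike 𝕜] [NormedAddCommGroup X] [NormedSpace 𝕜 X]
  [NormedAddCommGroup Y] [NormedSpace 𝕜 Y]

/-- `T` is range strongly exposing. -/
def IsRSE (T : X →L[𝕜] Y) : Prop :=
  ∃ x₀ : X, ‖x₀‖ = 1 ∧ ∀ x : ℕ → X, (∀ n, ‖x n‖ ≤ 1) →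
    Tendsto (fun n => ‖T (x n)‖) atTop (𝓝 ‖T‖) →
    ∃ σ : ℕ → ℕ, StrictMono σ ∧ ∃ l : 𝕜, ‖l‖ = 1 ∧
      Tendsto (fun n => T (x (σ n))) atTop (𝓝 (l • T x₀))

/-- The Bishop-Phelps-Bollobás property for range strongly exposing operators of a set `I` of
operators from `X` to `Y`. -/
def BPBpRSE (I : Set (X →L[𝕜] Y)) : Prop :=
  ∀ ε : ℝ, 0 < ε → ∃ η : ℝ, 0 < η ∧ η < ε ∧ ∀ (T : X →L[𝕜] Y) (x : X), T ∈ I →
    ‖T‖ = 1 → ‖x‖ = 1 → 1 - η < ‖T x‖ → ∃ (S : X →L[𝕜] Y) (x₀ : X), IsRSE S ∧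
      S ∈ I ∧ ‖x₀‖ = 1 ∧ ‖S‖ = 1 ∧ ‖S x₀‖ = 1 ∧ ‖S - T‖ < ε ∧ ‖x - x₀‖ < ε

/-- The weak form: rank-two operators are approximated by range strongly exposing ones. -/
def RankTwo (𝕜 : Type) (X : Type u) (Y : Type v) [RCLike 𝕜] [NormedAddCommGroup X] [NormedSpace 𝕜 X]
    [NormedAddCommGroup Y] [NormedSpace 𝕜 Y] : Prop :=
  ∀ ε : ℝ, 0 < ε → ∃ η : ℝ, 0 < η ∧ η < ε ∧ ∀ (T : X →L[𝕜] Y) (x : X),
    (∃ (f g : X →L[𝕜] 𝕜) (a b : Y), ∀ z, T z = f z • a + g z • b) →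
    ‖T‖ = 1 → ‖x‖ = 1 → 1 - η < ‖T x‖ → ∃ (S : X →L[𝕜] Y) (x₀ : X), IsRSE S ∧
      ‖x₀‖ = 1 ∧ ‖S‖ = 1 ∧ ‖S x₀‖ = 1 ∧ ‖S - T‖ < ε ∧ ‖x - x₀‖ < ε

lemma helly (F : X →L[𝕜] Y) (p : Y) (h : ∀ u : Y →L[𝕜] 𝕜, ‖u p‖ ≤ ‖u.comp F‖) {δ : ℝ}
    (hδ : 0 < δ) : ∃ z : X, ‖z‖ ≤ 1 ∧ ‖F z - p‖ < δ := by
  let : NormedSpace ℝ Y := NormedSpace.restrictScalars ℝ 𝕜 Y
  have : IsScalarTower ℝ 𝕜 Y := IsScalarTower.of_algebraMap_smul fun _ _ => rfl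
  have hc : Convex ℝ (F '' {z | ‖z‖ ≤ 1}) := by
    rintro _ ⟨x, hx, rfl⟩ _ ⟨y, hy, rfl⟩ a b ha hb hab
    refine ⟨(a : 𝕜) • x + (b : 𝕜) • y, ?_, by rw [map_add, map_smul, map_smul]; rfl⟩
    refine (norm_add_le _ _).trans ?_
    rw [norm_smul, norm_smul, RCLike.norm_ofReal, RCLike.norm_ofReal, abs_of_nonneg ha,
      abs_of_nonneg hb]
    have h1 : ‖x‖ ≤ 1 := hx
    have h2 : ‖y‖ ≤ 1 := hy
    nlinarith
  have hp : p ∈ closure (F '' {z | ‖z‖ ≤ 1}) := by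
    by_contra hn
    obtain ⟨u, s, h1, h2⟩ :=
      RCLike.geometric_hahn_banach_closed_point (𝕜 := 𝕜) hc.closure isClosed_closure hn
    have h0 : 0 < s := by
      simpa using h1 (F 0) (subset_closure ⟨0, by simp, rfl⟩)
    have h3 : ‖u.comp F‖ ≤ s := by
      refine ContinuousLinearMap.opNorm_le_of_unit_norm h0.le fun x hx => ?_
      obtain ⟨a, a1, a2⟩ := RCLike.exists_norm_eq_mul_self ((u.comp F) x)
      have := h1 (F (a • x)) (subset_closure ⟨a • x, by simp [norm_smul, a1, hx], rfl⟩)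
      rw [map_smul, map_smul, smul_eq_mul] at this
      change RCLike.re (a * (u.comp F) x) < s at this
      rw [← a2, RCLike.ofReal_re] at this
      exact this.le
    have h4 := (RCLike.re_le_norm (u p)).trans ((h u).trans h3)
    linarith
  obtain ⟨_, ⟨z, hz, rfl⟩, hd⟩ := Metric.mem_closure_iff.1 hp δ hδ
  exact ⟨z, hz, by rwa [dist_comm, dist_eq_norm] at hd⟩

lemma comb {y₀ y₁ : Y} (h : ∀ w : 𝕜, ‖w‖ = 1 → ‖y₀ + w • y₁‖ ≤ 1) {a b : 𝕜} {r : ℝ}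
    (ha : ‖a‖ ≤ r) (hb : ‖b‖ ≤ r) : ‖a • y₀ + b • y₁‖ ≤ r := by
  obtain ⟨g, g1, g2⟩ := exists_dual_vector'' 𝕜 (a • y₀ + b • y₁)
  obtain ⟨c, c1, c2⟩ := RCLike.exists_norm_eq_mul_self (g y₀)
  obtain ⟨d, d1, d2⟩ := RCLike.exists_norm_eq_mul_self (g y₁)
  have c0 : c ≠ 0 := by rintro rfl; simp at c1
  have h1 := h (c⁻¹ * d) (by simp [c1, d1])
  have h2 : ‖g (c • (y₀ + (c⁻¹ * d) • y₁))‖ ≤ 1 := by
    refine (g.le_opNorm _).trans ?_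
    rw [norm_smul, c1, one_mul]
    exact mul_le_one₀ g1 (norm_nonneg _) h1
  have h3 : g (c • (y₀ + (c⁻¹ * d) • y₁)) = ((‖g y₀‖ + ‖g y₁‖ : ℝ) : 𝕜) := by
    rw [map_smul, map_add, map_smul, smul_eq_mul, smul_eq_mul, RCLike.ofReal_add, c2, d2]
    field_simp
  rw [h3, RCLike.norm_ofReal, abs_of_nonneg (by positivity)] at h2
  have h4 : ‖g (a • y₀ + b • y₁)‖ ≤ r * ‖g y₀‖ + r * ‖g y₁‖ := by
    rw [map_add, map_smul, map_smul]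
    refine (norm_add_le _ _).trans ?_
    rw [norm_smul, norm_smul]
    gcongr
  rw [g2, RCLike.norm_ofReal, abs_norm] at h4
  have := (norm_nonneg a).trans ha
  nlinarith

variable (e1 e2 : X →L[𝕜] 𝕜) (P : (X →L[𝕜] 𝕜) →ₗ[𝕜] (X →L[𝕜] 𝕜)) (Ψ : (X →L[𝕜] 𝕜) →L[𝕜] 𝕜)
  (P1 : P e1 = 0) (P2 : P e2 = e2) (hL : ∀ f, ‖P f‖ + ‖f - P f‖ ≤ ‖f‖)
  (hΨ : ‖Ψ‖ ≤ 1) (hΨ2 : Ψ e2 = 1)

include hL hΨ in
lemma psi {x : X} (hx : ‖x‖ ≤ 1) (f : X →L[𝕜] 𝕜) : ‖(f - P f) x + Ψ (P f)‖ ≤ ‖f‖ := by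
  have h1 : ‖(f - P f) x‖ ≤ ‖f - P f‖ :=
    ((f - P f).le_opNorm x).trans (mul_le_of_le_one_right (norm_nonneg _) hx)
  have h2 : ‖Ψ (P f)‖ ≤ ‖P f‖ :=
    (Ψ.le_opNorm (P f)).trans (mul_le_of_le_one_left (norm_nonneg _) hΨ)
  have := hL f
  have := norm_add_le ((f - P f) x) (Ψ (P f))
  linarith

include P1 P2 hL hΨ hΨ2 in
lemma step (w : X) (hw : ∀ f : X →L[𝕜] 𝕜, (P f) w = 0) (u v : Y) (T S : X →L[𝕜] Y)
    (hT : ∀ x, T x = e1 x • u + e2 x • v) (n2 : ‖e2‖ ≤ 1) (x₀ : X)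
    (hR : IsRSE S) (hx : ‖x₀‖ = 1) (hS : ‖S‖ = 1) (h0 : ‖S x₀‖ = 1) (he : ‖w - x₀‖ ≤ 1 / 2) :
    ‖v‖ ≤ 4 * ‖S - T‖ := by
  obtain ⟨g, g1, g2⟩ := exists_dual_vector'' 𝕜 (S x₀)
  rw [h0, RCLike.ofReal_one] at g2
  set f := g.comp S with hf
  have f0 : f x₀ = 1 := g2
  have f1 : ‖f‖ ≤ 1 := (g.opNorm_comp_le S).trans (by rw [hS]; linarith)
  have cf : P f = 0 := by
    have a0 : (P f) x₀ = (P f) (x₀ - w) := by rw [map_sub, hw, sub_zero]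
    have a1 : ‖(P f) x₀‖ ≤ ‖P f‖ * (1 / 2) := by
      rw [a0]
      refine ((P f).le_opNorm _).trans ?_
      rw [norm_sub_rev] at he
      exact mul_le_mul_of_nonneg_left he (norm_nonneg _)
    have a2 : ‖(f - P f) x₀‖ ≤ ‖f - P f‖ :=
      ((f - P f).le_opNorm x₀).trans (mul_le_of_le_one_right (norm_nonneg _) hx.le)
    have a3 : f x₀ = (f - P f) x₀ + (P f) x₀ := by simp
    have a4 : (1 : ℝ) ≤ ‖(f - P f) x₀‖ + ‖(P f) x₀‖ := by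
      have := norm_add_le ((f - P f) x₀) ((P f) x₀)
      rw [← a3, f0, norm_one] at this
      exact this
    have a5 := hL f
    have a6 : ‖P f‖ ≤ 0 := by linarith
    exact norm_le_zero_iff.1 a6
  have e2x : ‖e2 x₀‖ ≤ 1 / 2 := by
    have a0 : e2 x₀ = e2 (x₀ - w) := by
      have := hw e2
      rw [P2] at this
      rw [map_sub, this, sub_zero]
    rw [a0]
    refine (e2.le_opNorm _).trans ?_
    rw [norm_sub_rev] at he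
    exact (mul_le_of_le_one_left (norm_nonneg _) n2).trans he
  have hz : ∀ n : ℕ, ∃ z : X, ‖z‖ ≤ 1 ∧
      ‖(f.prod T) z - (1, e1 x₀ • u + v)‖ < 1 / ((n:ℝ) + 1) := fun n => by
    refine helly _ _ (fun w => ?_) (by positivity)
    have k : w.comp (f.prod T) = w (1, 0) • f + w (0, u) • e1 + w (0, v) • e2 := by
      ext x
      have : (f x, T x) = f x • ((1:𝕜), (0:Y)) + e1 x • (0, u) + e2 x • (0, v) := by
        rw [hT]; ext <;> simp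
      change w (f x, T x) = w (1, 0) * f x + w (0, u) * e1 x + w (0, v) * e2 x
      rw [this, map_add, map_add, map_smul, map_smul, map_smul]
      simp only [smul_eq_mul]; ring
    have ck : P (w.comp (f.prod T)) = w (0, v) • e2 := by
      rw [k, map_add, map_add, map_smul, map_smul, map_smul, cf, P1, P2]
      ext x
      change w (1, 0) * 0 + w (0, u) * 0 + w (0, v) * e2 x = w (0, v) * e2 x
      ring
    have := psi P Ψ hL hΨ hx.le (w.comp (f.prod T))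
    rw [ck] at this
    refine le_trans (le_of_eq ?_) this
    congr 1
    rw [k, map_smul, hΨ2]
    have e3 : ((1 : 𝕜), e1 x₀ • u + v) = ((1:𝕜), (0:Y)) + e1 x₀ • (0, u) + (0, v) := by
      ext <;> simp
    rw [e3, map_add, map_add, map_smul]
    simp only [sub_apply, add_apply, smul_apply, smul_eq_mul, f0]
    ring
  choose z z1 z2 using hz
  have lim : Tendsto (fun n => (f.prod T) (z n)) atTop (𝓝 (1, e1 x₀ • u + v)) := by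
    rw [tendsto_iff_norm_sub_tendsto_zero]
    exact squeeze_zero (fun _ => norm_nonneg _) (fun n => (z2 n).le)
      tendsto_one_div_add_atTop_nhds_zero_nat
  have l1 : Tendsto (fun n => g (S (z n))) atTop (𝓝 1) := (continuous_fst.tendsto _).comp lim
  have l2 : Tendsto (fun n => T (z n)) atTop (𝓝 (e1 x₀ • u + v)) :=
    (continuous_snd.tendsto _).comp lim
  obtain ⟨x₁, -, hx₁⟩ := hR
  obtain ⟨σ, s1, l, -, s3⟩ := hx₁ z z1 (by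
    refine tendsto_of_tendsto_of_tendsto_of_le_of_le (g := fun n => ‖g (S (z n))‖)
      (by simpa [hS] using l1.norm) tendsto_const_nhds (fun n => ?_) fun n => ?_
    · exact (g.le_opNorm _).trans (mul_le_of_le_one_left (norm_nonneg _) g1)
    · exact (S.le_opNorm _).trans (mul_le_of_le_one_right (norm_nonneg _) (z1 n)))
  obtain ⟨τ, -, m, -, m3⟩ := hx₁ (fun _ => x₀) (fun _ => hx.le)
    (by rw [h0, hS]; exact tendsto_const_nhds)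
  have m4 : S x₀ = m • S x₁ := tendsto_nhds_unique tendsto_const_nhds m3
  have m5 : g (l • S x₁) = 1 :=
    tendsto_nhds_unique ((g.continuous.tendsto _).comp s3) (l1.comp s1.tendsto_atTop)
  have m6 : l = m := by
    rw [m4, map_smul, smul_eq_mul] at g2
    rw [map_smul, smul_eq_mul] at m5
    have : g (S x₁) ≠ 0 := by rintro h; rw [h] at g2; simp at g2
    exact mul_right_cancel₀ this (m5.trans g2.symm)
  rw [m6, ← m4] at s3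
  have l3 := (s3.sub (l2.comp s1.tendsto_atTop)).norm
  have l4 : ‖S x₀ - (e1 x₀ • u + v)‖ ≤ ‖S - T‖ := le_of_tendsto' l3 fun n =>
    ((S - T).le_opNorm (z (σ n))).trans (mul_le_of_le_one_right (norm_nonneg _) (z1 _))
  have l5 := (S - T).le_opNorm x₀
  rw [hx, mul_one, sub_apply] at l5
  have l6 := norm_sub_le (S x₀ - T x₀) (S x₀ - (e1 x₀ • u + v))
  have l7 : S x₀ - T x₀ - (S x₀ - (e1 x₀ • u + v)) = (1 - e2 x₀) • v := by rw [hT]; module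
  rw [l7, norm_smul] at l6
  have l8 : 1 / 2 ≤ ‖1 - e2 x₀‖ := by
    have := norm_sub_norm_le (1 : 𝕜) (e2 x₀)
    rw [norm_one] at this
    linarith
  have l9 : 1 / 2 * ‖v‖ ≤ ‖1 - e2 x₀‖ * ‖v‖ := mul_le_mul_of_nonneg_right l8 (norm_nonneg _)
  linarith

include P1 P2 hL hΨ hΨ2 in
lemma core (n1 : ‖e1‖ ≤ 1) (n2 : ‖e2‖ ≤ 1) (w : X) (hw1 : ‖w‖ = 1) (hw2 : e1 w = 1)
    (hw : ∀ f : X →L[𝕜] 𝕜, (P f) w = 0)
    (H : RankTwo 𝕜 X Y) {ε : ℝ} (hε : 0 < ε) : ∃ δ : ℝ, 0 < δ ∧ ∀ y₀ y₁ : Y,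
    (∀ w : 𝕜, ‖w‖ = 1 → ‖y₀ + w • y₁‖ ≤ 1) → ε < ‖y₁‖ → ‖y₀‖ < 1 - δ := by
  obtain ⟨η, h0, h1, H⟩ := H (min (ε / 8) (1 / 4)) (by positivity)
  have m1 := min_le_left (ε / 8) (1 / 4)
  have m2 := min_le_right (ε / 8) (1 / 4)
  refine ⟨η / 2, by positivity, fun y₀ y₁ hy h2 => not_le.1 fun h3 => ?_⟩
  have b1 : ∀ x, ‖e1 x‖ ≤ ‖x‖ := fun x =>
    (e1.le_opNorm x).trans (mul_le_of_le_one_left (norm_nonneg _) n1)
  have b2 : ∀ x, ‖e2 x‖ ≤ ‖x‖ := fun x =>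
    (e2.le_opNorm x).trans (mul_le_of_le_one_left (norm_nonneg _) n2)
  have ew : e2 w = 0 := by
    have := hw e2
    rwa [P2] at this
  set T : X →L[𝕜] Y := e1.smulRight y₀ + e2.smulRight y₁ with hT
  have Ta : ∀ x, T x = e1 x • y₀ + e2 x • y₁ := fun x => rfl
  have Tn : ‖T‖ ≤ 1 := T.opNorm_le_bound zero_le_one fun x => by
    rw [one_mul, Ta]; exact comb hy (b1 x) (b2 x)
  have Tw : T w = y₀ := by rw [Ta, hw2, ew]; simp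
  have z6 := T.le_opNorm w
  rw [Tw, hw1, mul_one] at z6
  have z8 : 1 / 2 ≤ ‖T‖ := by linarith
  have i2 : 1 ≤ ‖T‖⁻¹ := one_le_inv_iff₀.2 ⟨by linarith, Tn⟩
  set b : 𝕜 := ((‖T‖⁻¹ : ℝ) : 𝕜) with hb
  have nb : ‖b‖ = ‖T‖⁻¹ := by rw [hb, RCLike.norm_ofReal, abs_of_pos (by linarith)]
  obtain ⟨S, x₀, r1, r2, r3, r4, r5, r6⟩ := H (b • T) w
    ⟨e1, e2, b • y₀, b • y₁, fun z => by rw [smul_apply, Ta]; module⟩
    (by rw [norm_smul, nb, inv_mul_cancel₀ (by linarith)]) hw1 (by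
      rw [smul_apply, norm_smul, nb, Tw]
      have : ‖y₀‖ ≤ ‖T‖⁻¹ * ‖y₀‖ := le_mul_of_one_le_left (norm_nonneg _) i2
      linarith)
  have q := step e1 e2 P Ψ P1 P2 hL hΨ hΨ2 w hw (b • y₀) (b • y₁) (b • T) S
    (fun x => by rw [smul_apply, Ta]; module) n2 x₀ r1 r2 r3 r4 (by linarith)
  rw [norm_smul, nb] at q
  nlinarith [norm_nonneg y₁]

end core

section mideal

variable {𝕜 : Type} {X : Type u} {Y : Type v} [RCLike 𝕜] [NormedAddCommGroup X] [NormedSpace 𝕜 X]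
  [NormedAddCommGroup Y] [NormedSpace 𝕜 Y]

/-- `J` is an M-ideal of `X`: there is a linear projection `P` of the dual onto the annihilator of
`J` with `‖f‖ = ‖P f‖ + ‖f - P f‖` for all `f`. -/
def IsMIdeal (J : Submodule 𝕜 X) : Prop :=
  IsClosed (J : Set X) ∧ ∃ P : StrongDual 𝕜 X →ₗ[𝕜] StrongDual 𝕜 X,
    (∀ f, ∀ x ∈ J, P f x = 0) ∧ (∀ f : StrongDual 𝕜 X, (∀ x ∈ J, f x = 0) → P f = f) ∧
    ∀ f, ‖f‖ = ‖P f‖ + ‖f - P f‖

theorem mideal_core {J : Submodule 𝕜 X} (hJ : IsMIdeal J) (hbot : J ≠ ⊥) (htop : J ≠ ⊤)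
    (H : RankTwo 𝕜 X Y) {ε : ℝ} (hε : 0 < ε) : ∃ δ : ℝ, 0 < δ ∧ ∀ y₀ y₁ : Y,
    (∀ w : 𝕜, ‖w‖ = 1 → ‖y₀ + w • y₁‖ ≤ 1) → ε < ‖y₁‖ → ‖y₀‖ < 1 - δ := by
  obtain ⟨hcl, P, hP1, hP2, hP3⟩ := hJ
  -- a unit vector of `J`
  obtain ⟨w0, hw0, hw0'⟩ := (Submodule.ne_bot_iff _).1 hbot
  have hn : ‖w0‖ ≠ 0 := norm_ne_zero_iff.2 hw0'
  obtain ⟨w, hwJ, hw1⟩ : ∃ w ∈ J, ‖w‖ = 1 := by
    refine ⟨((‖w0‖⁻¹ : ℝ) : 𝕜) • w0, J.smul_mem _ hw0, ?_⟩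
    rw [norm_smul, RCLike.norm_ofReal, abs_of_nonneg (by positivity), inv_mul_cancel₀ hn]
  obtain ⟨e1, n1, h1⟩ := exists_dual_vector'' 𝕜 w
  rw [hw1, RCLike.ofReal_one] at h1
  have P1 : P e1 = 0 := by
    have a1 : (e1 - P e1) w = 1 := by rw [sub_apply, hP1 e1 w hwJ, sub_zero, h1]
    have a2 : 1 ≤ ‖e1 - P e1‖ := by
      have := (e1 - P e1).le_opNorm w
      rwa [a1, norm_one, hw1, mul_one] at this
    have a3 := hP3 e1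
    exact norm_le_zero_iff.1 (by linarith)
  -- a functional annihilating `J`
  obtain ⟨x, hx⟩ : ∃ x, x ∉ J := by
    by_contra hcon
    push Not at hcon
    exact htop (Submodule.eq_top_iff'.2 hcon)
  obtain ⟨g, hg1, hg2⟩ : ∃ g : StrongDual 𝕜 X, (∀ y ∈ J, g y = 0) ∧ g ≠ 0 := by
    have : IsClosed (J : Set X) := hcl
    obtain ⟨h, hh⟩ := SeparatingDual.exists_ne_zero (R := 𝕜) (x := J.mkQL x)
      (by rw [Submodule.mkQL_apply, Submodule.mkQ_apply, Ne, Submodule.Quotient.mk_eq_zero]; exact hx)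
    refine ⟨h.comp J.mkQL, fun y hy => ?_, fun h0 => hh ?_⟩
    · rw [ContinuousLinearMap.comp_apply, Submodule.mkQL_apply, Submodule.mkQ_apply,
        (Submodule.Quotient.mk_eq_zero J).2 hy, map_zero]
    · have := congrArg (fun f : StrongDual 𝕜 X => f x) h0
      simpa using this
  have hgn : ‖g‖ ≠ 0 := norm_ne_zero_iff.2 hg2
  obtain ⟨e2, n2, he2⟩ : ∃ e2 : StrongDual 𝕜 X, ‖e2‖ = 1 ∧ ∀ y ∈ J, e2 y = 0 := by
    refine ⟨((‖g‖⁻¹ : ℝ) : 𝕜) • g, ?_, fun y hy => ?_⟩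
    · rw [norm_smul, RCLike.norm_ofReal, abs_of_nonneg (by positivity), inv_mul_cancel₀ hgn]
    · rw [smul_apply, hg1 y hy, smul_zero]
  obtain ⟨Ψ, hΨ, hΨ2⟩ := exists_dual_vector'' 𝕜 e2
  rw [n2, RCLike.ofReal_one] at hΨ2
  exact core e1 e2 P Ψ P1 (hP2 e2 he2) (fun f => (hP3 f).ge) hΨ hΨ2 n1 n2.le w hw1 h1
    (fun f => hP1 f w hwJ) H hε

end mideal

end KS6_63.RSE
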