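import Pool.Agent.KS6_63.RSE

/-!
`L₁(μ)`-preduals of dimension at least two have a nontrivial M-ideal.
-/

set_option autoImplicit false

open Set Filter Topology MeasureTheory

namespace KS6_63.RSE

universe u v w

section extreme

variable {𝕜 : Type} {X : Type u} [RCLike 𝕜] [NormedAddCommGroup X] [NormedSpace 𝕜 X]

/-- extreme point of the unit ball, elementary form -/
def Ext {E : Type u} [NormedAddCommGroup E] [NormedSpace 𝕜 E] (e : E) : Prop :=
  ‖e‖ ≤ 1 ∧ ∀ (a b : E) (t : ℝ), ‖a‖ ≤ 1 → ‖b‖ ≤ 1 → 0 < t → t < 1 →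
      (t : 𝕜) • a + ((1 - t : ℝ) : 𝕜) • b = e → a = e

theorem exists_extreme : ∃ e : StrongDual 𝕜 X, Ext (𝕜 := 𝕜) e := by
  have hc : IsCompact (WeakDual.toStrongDual ⁻¹' Metric.closedBall (0 : StrongDual 𝕜 X) 1 :
      Set (WeakDual 𝕜 X)) := WeakDual.isCompact_closedBall 0 1
  have hlc : LocallyConvexSpace ℝ (WeakDual 𝕜 X) :=
    WeakBilin.locallyConvexSpace (𝕜 := 𝕜) (E := StrongDual 𝕜 X) (F := X) (B := topDualPairing 𝕜 X)
  obtain ⟨e, he1, he2⟩ := hc.extremePoints_nonempty ⟨0, by simp⟩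
  refine ⟨WeakDual.toStrongDual e, by simpa using he1, ?_⟩
  intro a b t ha hb ht0 ht1 hab
  have h1 : StrongDual.toWeakDual a ∈ (WeakDual.toStrongDual ⁻¹' Metric.closedBall
      (0 : StrongDual 𝕜 X) 1 : Set (WeakDual 𝕜 X)) := by simpa using ha
  have h2 : StrongDual.toWeakDual b ∈ (WeakDual.toStrongDual ⁻¹' Metric.closedBall
      (0 : StrongDual 𝕜 X) 1 : Set (WeakDual 𝕜 X)) := by simpa using hb
  have h3 := he2 h1 h2 ⟨t, 1 - t, ht0, by linarith, by ring, ?_⟩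
  · rw [← h3]
    rfl
  · rw [← WeakDual.toStrongDual.injective.eq_iff, ← hab]
    ext x
    change t • a x + (1 - t) • b x = (t : 𝕜) • a x + ((1 - t : ℝ) : 𝕜) • b x
    rw [RCLike.real_smul_eq_coe_smul (K := 𝕜), RCLike.real_smul_eq_coe_smul (K := 𝕜)]

theorem Ext.norm {E : Type u} [NormedAddCommGroup E] [NormedSpace 𝕜 E] [Nontrivial E] {e : E}
    (he : Ext (𝕜 := 𝕜) e) : ‖e‖ = 1 := by
  obtain ⟨h1, h2⟩ := he
  rcases eq_or_lt_of_le h1 with h | h
  · exact h
  exfalso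
  rcases eq_or_ne e 0 with h0 | h0
  · subst h0
    obtain ⟨x, hx⟩ := exists_ne (0 : E)
    have hn : ‖x‖ ≠ 0 := norm_ne_zero_iff.2 hx
    have hy : ‖((‖x‖⁻¹ : ℝ) : 𝕜) • x‖ = 1 := by
      rw [norm_smul, RCLike.norm_ofReal, abs_of_nonneg (by positivity), inv_mul_cancel₀ hn]
    have h3 := h2 (((‖x‖⁻¹ : ℝ) : 𝕜) • x) (-(((‖x‖⁻¹ : ℝ) : 𝕜) • x)) (1 / 2) hy.le
      (by rw [norm_neg]; exact hy.le) (by norm_num) (by norm_num) (by
        have : ((1 - 1 / 2 : ℝ) : 𝕜) = ((1 / 2 : ℝ) : 𝕜) := by norm_num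
        rw [this, smul_neg, add_neg_cancel])
    rw [h3, norm_zero] at hy
    exact zero_ne_one hy
  · have hn : 0 < ‖e‖ := norm_pos_iff.2 h0
    have hy : ‖((‖e‖⁻¹ : ℝ) : 𝕜) • e‖ = 1 := by
      rw [norm_smul, RCLike.norm_ofReal, abs_of_nonneg (by positivity), inv_mul_cancel₀ hn.ne']
    have h3 := h2 (((‖e‖⁻¹ : ℝ) : 𝕜) • e) 0 ‖e‖ hy.le (by simp) hn h (by
      rw [smul_zero, add_zero, smul_smul, ← RCLike.ofReal_mul, mul_inv_cancel₀ hn.ne',
        RCLike.ofReal_one, one_smul])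
    rw [h3] at hy
    exact h.ne hy

end extreme

section L1

variable {𝕜 : Type} [RCLike 𝕜] {α : Type w} [MeasurableSpace α] {μ : Measure α}

lemma L1_norm_split (h : Lp 𝕜 1 μ) {B : Set α} (hB : MeasurableSet B) :
    ‖h‖ = ∫ x in B, ‖h x‖ ∂μ + ∫ x in Bᶜ, ‖h x‖ ∂μ := by
  rw [L1.norm_eq_integral_norm, integral_add_compl hB (L1.integrable_coeFn h).norm]

lemma L1_atom (F : Lp 𝕜 1 μ) (hF1 : ‖F‖ = 1) (hF : Ext (𝕜 := 𝕜) F) {B : Set α}
    (hB : MeasurableSet B) : (∀ᵐ x ∂μ, x ∈ B → F x = 0) ∨ (∀ᵐ x ∂μ, x ∉ B → F x = 0) := by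
  have hint := L1.integrable_coeFn F
  have hs := L1_norm_split F hB
  rw [hF1] at hs
  obtain ⟨p, hp⟩ : ∃ p, p = ∫ x in B, ‖F x‖ ∂μ := ⟨_, rfl⟩
  obtain ⟨q, hq⟩ : ∃ q, q = ∫ x in Bᶜ, ‖F x‖ ∂μ := ⟨_, rfl⟩
  rw [← hp, ← hq] at hs
  have hp0 : 0 ≤ p := by rw [hp]; exact integral_nonneg fun _ => norm_nonneg _
  have hq0 : 0 ≤ q := by rw [hq]; exact integral_nonneg fun _ => norm_nonneg _
  have hz : ∀ C : Set α, MeasurableSet C → ∫ x in C, ‖F x‖ ∂μ = 0 → ∀ᵐ x ∂μ, x ∈ C → F x = 0 := by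
    intro C hC h0
    rw [integral_eq_zero_iff_of_nonneg (fun _ => norm_nonneg _) hint.norm.integrableOn] at h0
    rw [Filter.EventuallyEq, ae_restrict_iff' hC] at h0
    filter_upwards [h0] with x hx hxC
    simpa using hx hxC
  rcases eq_or_lt_of_le hp0 with h | h
  · left
    exact hz B hB (by rw [← hp, ← h])
  rcases eq_or_lt_of_le hq0 with h' | h'
  · right
    exact hz Bᶜ hB.compl (by rw [← hq, ← h'])
  exfalso
  have i1 : Integrable (B.indicator fun x => ((p⁻¹ : ℝ) : 𝕜) • F x) μ :=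
    (hint.smul ((p⁻¹ : ℝ) : 𝕜)).indicator hB
  have i2 : Integrable (Bᶜ.indicator fun x => ((q⁻¹ : ℝ) : 𝕜) • F x) μ :=
    (hint.smul ((q⁻¹ : ℝ) : 𝕜)).indicator hB.compl
  have n1 : ‖i1.toL1 _‖ ≤ 1 := by
    rw [L1.norm_of_fun_eq_integral_norm]
    have : (fun x => ‖B.indicator (fun x => ((p⁻¹ : ℝ) : 𝕜) • F x) x‖) =
        B.indicator (fun x => p⁻¹ * ‖F x‖) := by
      ext x
      rw [norm_indicator_eq_indicator_norm]
      congr 1
      ext y
      rw [norm_smul, RCLike.norm_ofReal, abs_of_nonneg (by positivity)]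
    rw [this, integral_indicator hB, integral_const_mul, ← hp, inv_mul_cancel₀ h.ne']
  have n2 : ‖i2.toL1 _‖ ≤ 1 := by
    rw [L1.norm_of_fun_eq_integral_norm]
    have : (fun x => ‖Bᶜ.indicator (fun x => ((q⁻¹ : ℝ) : 𝕜) • F x) x‖) =
        Bᶜ.indicator (fun x => q⁻¹ * ‖F x‖) := by
      ext x
      rw [norm_indicator_eq_indicator_norm]
      congr 1
      ext y
      rw [norm_smul, RCLike.norm_ofReal, abs_of_nonneg (by positivity)]
    rw [this, integral_indicator hB.compl, integral_const_mul, ← hq, inv_mul_cancel₀ h'.ne']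
  have hq' : 1 - p = q := by linarith
  have key := hF.2 (i1.toL1 _) (i2.toL1 _) p n1 n2 h (by linarith) (by
    rw [hq']
    ext1
    filter_upwards [Lp.coeFn_add ((p : 𝕜) • i1.toL1 _) ((q : 𝕜) • i2.toL1 _),
      Lp.coeFn_smul (p : 𝕜) (i1.toL1 _), Lp.coeFn_smul (q : 𝕜) (i2.toL1 _),
      i1.coeFn_toL1, i2.coeFn_toL1] with x a1 a2 a3 a4 a5
    rw [a1, Pi.add_apply, a2, a3, Pi.smul_apply, Pi.smul_apply, a4, a5]
    by_cases hx : x ∈ B
    · rw [indicator_of_mem hx, indicator_of_notMem (by simpa using hx), smul_zero, add_zero,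
        smul_smul, ← RCLike.ofReal_mul, mul_inv_cancel₀ h.ne', RCLike.ofReal_one, one_smul]
    · rw [indicator_of_notMem hx, indicator_of_mem (by simpa using hx), smul_zero, zero_add,
        smul_smul, ← RCLike.ofReal_mul, mul_inv_cancel₀ h'.ne', RCLike.ofReal_one, one_smul])
  have hq2 : q = 0 := by
    rw [hq]
    rw [integral_eq_zero_iff_of_nonneg (fun _ => norm_nonneg _) hint.norm.integrableOn]
    rw [Filter.EventuallyEq, ae_restrict_iff' hB.compl]
    have a4 := i1.coeFn_toL1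
    rw [key] at a4
    filter_upwards [a4] with x hx hxB
    rw [hx, indicator_of_notMem (by simpa using hxB)]
    simp
  exact h'.ne' hq2

/-- an extreme point of the ball of `L₁(μ)` spans an L-summand -/
theorem L1_summand (F : Lp 𝕜 1 μ) (hF1 : ‖F‖ = 1) (hF : Ext (𝕜 := 𝕜) F) :
    ∃ c : Lp 𝕜 1 μ →ₗ[𝕜] 𝕜, c F = 1 ∧ ∀ h : Lp 𝕜 1 μ, ‖h‖ = ‖c h • F‖ + ‖h - c h • F‖ := by
  have hFm : Measurable F := (Lp.stronglyMeasurable F).measurable
  obtain ⟨A, hA⟩ : ∃ A : Set α, A = {x | F x ≠ 0} := ⟨_, rfl⟩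
  have hAm : MeasurableSet A := by
    rw [hA]
    exact (hFm (measurableSet_singleton 0)).compl
  have hex : ∀ h : Lp 𝕜 1 μ, ∃ s : 𝕜, ∀ᵐ x ∂μ, x ∈ A → h x = s * F x := by
    intro h
    have hhm : Measurable h := (Lp.stronglyMeasurable h).measurable
    have hrm : Measurable fun x => h x / F x := hhm.div hFm
    obtain ⟨s, hs⟩ := Filter.exists_eventuallyEq_const_of_forall_separating
      (l := ae (μ.restrict A)) (f := fun x => h x / F x) MeasurableSet (fun U hU => by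
        rcases L1_atom F hF1 hF (hrm hU) with h1 | h1
        · right
          rw [ae_restrict_iff' hAm]
          filter_upwards [h1] with x hx hxA hxU
          rw [hA] at hxA
          exact hxA (hx hxU)
        · left
          rw [ae_restrict_iff' hAm]
          filter_upwards [h1] with x hx hxA
          by_contra hxU
          rw [hA] at hxA
          exact hxA (hx hxU))
    rw [Filter.EventuallyEq, ae_restrict_iff' hAm] at hs
    refine ⟨s, ?_⟩
    filter_upwards [hs] with x hx hxA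
    have := hx hxA
    rw [Function.const_apply, div_eq_iff (by rw [hA] at hxA; exact hxA)] at this
    exact this
  choose c hc using hex
  have huniq : ∀ (h : Lp 𝕜 1 μ) (s : 𝕜), (∀ᵐ x ∂μ, x ∈ A → h x = s * F x) → c h = s := by
    intro h s hs
    by_contra hne
    have h0 : F = 0 := by
      rw [Lp.eq_zero_iff_ae_eq_zero]
      filter_upwards [hs, hc h] with x h1 h2
      by_contra hx
      have hxA : x ∈ A := by rw [hA]; exact hx
      exact hne (mul_right_cancel₀ hx ((h2 hxA).symm.trans (h1 hxA)))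
    rw [h0, norm_zero] at hF1
    exact zero_ne_one hF1
  refine ⟨⟨⟨c, fun f g => ?_⟩, fun a f => ?_⟩, ?_, fun h => ?_⟩
  · apply huniq
    filter_upwards [hc f, hc g, Lp.coeFn_add f g] with x h1 h2 h3 hxA
    rw [h3, Pi.add_apply, h1 hxA, h2 hxA, add_mul]
  · apply huniq
    filter_upwards [hc f, Lp.coeFn_smul a f] with x h1 h2 hxA
    rw [h2, Pi.smul_apply, h1 hxA, smul_eq_mul, RingHom.id_apply, smul_eq_mul, mul_assoc]
  · apply huniq
    filter_upwards with x hxA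
    rw [one_mul]
  change ‖h‖ = ‖c h • F‖ + ‖h - c h • F‖
  have e1 : ‖c h • F‖ = ∫ x in A, ‖h x‖ ∂μ := by
    rw [L1.norm_eq_integral_norm, ← integral_indicator hAm]
    apply integral_congr_ae
    filter_upwards [hc h, Lp.coeFn_smul (c h) F] with x h1 h2
    rw [h2, Pi.smul_apply, smul_eq_mul]
    by_cases hx : x ∈ A
    · rw [indicator_of_mem hx, h1 hx]
    · rw [indicator_of_notMem hx]
      have : F x = 0 := by
        rw [hA] at hx
        simpa using hx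
      rw [this, mul_zero, norm_zero]
  have e2 : ‖h - c h • F‖ = ∫ x in Aᶜ, ‖h x‖ ∂μ := by
    rw [L1.norm_eq_integral_norm, ← integral_indicator hAm.compl]
    apply integral_congr_ae
    filter_upwards [hc h, Lp.coeFn_smul (c h) F, Lp.coeFn_sub h (c h • F)] with x h1 h2 h3
    rw [h3, Pi.sub_apply, h2, Pi.smul_apply, smul_eq_mul]
    by_cases hx : x ∈ A
    · rw [indicator_of_notMem (by simpa using hx), h1 hx, sub_self, norm_zero]
    · rw [indicator_of_mem (by simpa using hx)]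
      have : F x = 0 := by
        rw [hA] at hx
        simpa using hx
      rw [this, mul_zero, sub_zero]
  rw [e1, e2]
  exact L1_norm_split h hAm

end L1

section predual

variable {𝕜 : Type} {X : Type u} [RCLike 𝕜] [NormedAddCommGroup X] [NormedSpace 𝕜 X]
  {α : Type w} [MeasurableSpace α] {μ : Measure α}

omit [MeasurableSpace α] in
/-- the kernel of a functional spanning an L-summand of the dual is an M-ideal -/
theorem mideal_ker (e : StrongDual 𝕜 X) (he0 : e ≠ 0) (c : StrongDual 𝕜 X →ₗ[𝕜] 𝕜) (hc1 : c e = 1)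
    (hc2 : ∀ f, ‖f‖ = ‖c f • e‖ + ‖f - c f • e‖) :
    IsMIdeal (LinearMap.ker (e : X →ₗ[𝕜] 𝕜)) ∧ LinearMap.ker (e : X →ₗ[𝕜] 𝕜) ≠ ⊤ ∧
      ∀ f : StrongDual 𝕜 X, (∀ x ∈ LinearMap.ker (e : X →ₗ[𝕜] 𝕜), f x = 0) → ∃ s : 𝕜, f = s • e := by
  have hspan : ∀ f : StrongDual 𝕜 X, (∀ x ∈ LinearMap.ker (e : X →ₗ[𝕜] 𝕜), f x = 0) →
      ∃ s : 𝕜, f = s • e := by
    intro f hf
    obtain ⟨y, hy⟩ : ∃ y, e y ≠ 0 := by
      by_contra hcon
      push Not at hcon
      exact he0 (ContinuousLinearMap.ext hcon)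
    refine ⟨f y / e y, ContinuousLinearMap.ext fun x => ?_⟩
    have h1 : f (x - (e x / e y) • y) = 0 := by
      apply hf
      change e (x - (e x / e y) • y) = 0
      rw [map_sub, map_smul, smul_eq_mul, div_mul_cancel₀ _ hy, sub_self]
    rw [map_sub, map_smul, smul_eq_mul, sub_eq_zero] at h1
    rw [h1, smul_apply, smul_eq_mul]
    ring
  obtain ⟨P, hP⟩ : ∃ P : StrongDual 𝕜 X →ₗ[𝕜] StrongDual 𝕜 X, ∀ f, P f = c f • e :=
    ⟨⟨⟨fun f => c f • e, fun f g => by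
        rw [map_add]
        refine ContinuousLinearMap.ext fun x => ?_
        change (c f + c g) * e x = c f * e x + c g * e x
        ring⟩,
      fun a f => by
        refine ContinuousLinearMap.ext fun x => ?_
        change c (a • f) * e x = a * (c f * e x)
        rw [map_smul, smul_eq_mul]
        ring⟩, fun f => rfl⟩
  refine ⟨⟨e.isClosed_ker, P, ?_, ?_, ?_⟩, ?_, hspan⟩
  · intro f x hx
    rw [hP, smul_apply]
    have : e x = 0 := hx
    rw [this, smul_zero]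
  · intro f hf
    obtain ⟨s, hs⟩ := hspan f hf
    rw [hP, hs, map_smul, hc1, smul_eq_mul, mul_one]
  · intro f
    rw [hP]
    exact hc2 f
  · intro htop
    apply he0
    ext x
    have : x ∈ LinearMap.ker (e : X →ₗ[𝕜] 𝕜) := by rw [htop]; trivial
    exact this

/-- an `L₁(μ)`-predual of dimension at least two has a nontrivial M-ideal -/
theorem mideal_of_L1 (Φ : StrongDual 𝕜 X ≃ₗᵢ[𝕜] Lp 𝕜 1 μ) (hdim : 2 ≤ Module.rank 𝕜 X) :
    ∃ J : Submodule 𝕜 X, IsMIdeal J ∧ J ≠ ⊥ ∧ J ≠ ⊤ := by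
  have hX : Nontrivial X := by
    rw [← rank_pos_iff_nontrivial (R := 𝕜)]
    exact lt_of_lt_of_le (by norm_num) hdim
  obtain ⟨e, he⟩ := exists_extreme (𝕜 := 𝕜) (X := X)
  have hen : ‖e‖ = 1 := he.norm
  have he0 : e ≠ 0 := by
    rintro rfl
    rw [norm_zero] at hen
    exact zero_ne_one hen
  have hF : Ext (𝕜 := 𝕜) (Φ e) := by
    refine ⟨by rw [Φ.norm_map]; exact he.1, fun a b t ha hb h0 h1 hab => ?_⟩
    have h2 := he.2 (Φ.symm a) (Φ.symm b) t (by rwa [Φ.symm.norm_map]) (by rwa [Φ.symm.norm_map])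
      h0 h1 (by rw [← map_smul, ← map_smul, ← map_add, hab, Φ.symm_apply_apply])
    rw [← h2, Φ.apply_symm_apply]
  obtain ⟨c, hc1, hc2⟩ := L1_summand (Φ e) (by rw [Φ.norm_map]; exact hen) hF
  obtain ⟨h1, h2, -⟩ := mideal_ker e he0 (c.comp (Φ.toLinearEquiv : StrongDual 𝕜 X →ₗ[𝕜] Lp 𝕜 1 μ))
    hc1 (fun f => by
      have h1 := hc2 (Φ f)
      rw [Φ.norm_map, ← map_smul, ← map_sub, Φ.norm_map, Φ.norm_map] at h1
      exact h1)
  refine ⟨_, h1, ?_, h2⟩
  intro hbot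
  have hinj : Function.Injective (e : X →ₗ[𝕜] 𝕜) := LinearMap.ker_eq_bot.1 hbot
  have h1 := LinearMap.lift_rank_le_of_injective (e : X →ₗ[𝕜] 𝕜) hinj
  rw [Module.rank_self, Cardinal.lift_one, Cardinal.lift_le_one_iff] at h1
  have h2 : (2 : Cardinal) ≤ 1 := hdim.trans h1
  norm_num at h2

omit [MeasurableSpace α] in
/-- an `ℓ₁`-predual has a nontrivial M-ideal -/
theorem mideal_of_l1 (Φ : StrongDual 𝕜 X ≃ₗᵢ[𝕜] lp (fun _ : ℕ => 𝕜) 1) :
    ∃ J : Submodule 𝕜 X, IsMIdeal J ∧ J ≠ ⊥ ∧ J ≠ ⊤ := by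
  obtain ⟨e, he⟩ : ∃ e : StrongDual 𝕜 X, e = Φ.symm (lp.single 1 0 1) := ⟨_, rfl⟩
  have hen : ‖e‖ = 1 := by
    rw [he, Φ.symm.norm_map, lp.norm_single (by norm_num), norm_one]
  have he0 : e ≠ 0 := by
    rintro rfl
    rw [norm_zero] at hen
    exact zero_ne_one hen
  obtain ⟨h1, h2, h3⟩ := mideal_ker e he0
    ⟨⟨fun f => Φ f 0, fun f g => by simp⟩, fun s f => by simp⟩ (by simp [he]) (fun f => by
      have := lp.norm_sub_norm_compl_sub_single (p := 1) (by simp) (Φ f) {0}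
      simp only [ENNReal.toReal_one, Real.rpow_one, Finset.sum_singleton] at this
      change ‖f‖ = ‖Φ f 0 • e‖ + ‖f - Φ f 0 • e‖
      rw [norm_smul, hen, mul_one, he]
      rw [← Φ.norm_map, ← Φ.norm_map (f - _), map_sub, map_smul, Φ.apply_symm_apply, ← lp.single_smul,
        smul_eq_mul, mul_one]
      linarith)
  refine ⟨_, h1, ?_, h2⟩
  intro hbot
  obtain ⟨s, hs⟩ := h3 (Φ.symm (lp.single 1 1 1)) (fun x hx => by
    rw [hbot, Submodule.mem_bot] at hx
    rw [hx, map_zero])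
  have h4 := congrArg (fun f => Φ f 1) hs
  simp only [he, map_smul, Φ.apply_symm_apply] at h4
  simp at h4

end predual

end KS6_63.RSE
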