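import Mathlib

/-!
Bounded density for random harmonic series: the kernel (from an earlier run) and the recursion for general
success probabilities.
-/

namespace KS6_63.RecHarm

open Filter Topology Set MeasureTheory ProbabilityTheory

theorem fix : ∃ r : ℝ → ℝ, Continuous r ∧
    ∀ u, r u = 1 - ∫ v in (1 : ℝ)..max u 1, r (v - 1) / max v 1 := by
  let T : (ℝ → ℝ) → ℝ → ℝ := fun r u => 1 - ∫ v in (1 : ℝ)..max u 1, r (v - 1) / max v 1
  have h0 : ∀ (r s : ℝ → ℝ) (k : ℕ), (∀ u ≤ (k + 1 : ℝ), r u = s u) →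
      ∀ u ≤ (k + 1 + 1 : ℝ), T r u = T s u := fun r s k h u hu =>
    congrArg (1 - ·) (intervalIntegral.integral_congr fun v hv => by
      rw [uIcc_of_le (le_max_right _ _)] at hv
      have := hv.2.trans (max_le hu (by linarith [k.cast_nonneg (α := ℝ)]))
      simp only [h (v - 1) (by linarith)])
  have h1 : ∀ k, Continuous (T^[k] 1) := fun k => by
    induction k with
    | zero => exact continuous_const
    | succ k ih =>
      rw [Function.iterate_succ_apply']
      exact continuous_const.sub ((intervalIntegral.continuous_primitive (fun _ _ =>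
        ((ih.comp (continuous_sub_right 1)).div (by fun_prop)
          fun v => by positivity).intervalIntegrable _ _) 1).comp (by fun_prop))
  have h2 : ∀ k : ℕ, ∀ u ≤ (k + 1 : ℝ), T^[k + 1] 1 u = T^[k] 1 u := fun k => by
    induction k with
    | zero => exact fun u hu => by simp [T, max_eq_right (by simpa using hu)]
    | succ k ih =>
      intro u hu
      rw [Function.iterate_succ_apply', Function.iterate_succ_apply' T k]
      exact h0 _ _ k (by simpa only [Function.iterate_succ_apply'] using ih) u (by simpa using hu)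
  have h3 : ∀ k j : ℕ, k ≤ j → ∀ u ≤ (k + 1 : ℝ), T^[j] 1 u = T^[k] 1 u := fun k j h u hu => by
    induction j, h using Nat.le_induction with
    | base => rfl
    | succ j h ih => exact (h2 j u (hu.trans (by gcongr))).trans ih
  have h4 : ∀ k : ℕ, ∀ u ≤ (k + 1 : ℝ), T^[⌈u⌉₊] 1 u = T^[k] 1 u := fun k u hu => by
    rw [← h3 _ _ (le_max_left _ k) u ((Nat.le_ceil u).trans (lt_add_one _).le),
      h3 _ _ (le_max_right _ k) u hu]
  refine ⟨fun u => T^[⌈u⌉₊] 1 u, continuous_iff_continuousAt.2 fun u =>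
    (h1 ⌈u⌉₊).continuousAt.congr ?_, fun u => ?_⟩
  · filter_upwards [Iio_mem_nhds ((Nat.le_ceil u).trans_lt (lt_add_one _))] with v hv
    exact (h4 _ v (le_of_lt hv)).symm
  · have := Nat.le_ceil u
    beta_reduce
    rw [h4 (⌈u⌉₊ + 1) u (by push_cast; linarith), Function.iterate_succ_apply']
    exact h0 _ _ _ (fun v hv => (h4 _ v hv).symm) u (by linarith)

theorem dickman : ∃ r : ℝ → ℝ, Continuous r ∧ (∀ u ≤ 1, r u = 1) ∧ (∀ u, 0 ≤ r u) ∧ Antitone r ∧
    ∀ a b, 1 ≤ a → a ≤ b → r b + (b - a) / b * r (b - 1) ≤ r a := by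
  obtain ⟨r, h0, h1⟩ := fix
  have h2 : ∀ u ≤ 1, r u = 1 := fun u hu => by rw [h1, max_eq_right hu]; simp
  have c1 : Continuous fun v => r (v - 1) / max v 1 :=
    (h0.comp (continuous_sub_right 1)).div (by fun_prop) fun v => by positivity
  have h3 : ∀ u, 1 ≤ u → u * r u = ∫ v in u - 1..u, r v := fun u hu => by
    have d : ∀ x, HasDerivAt (fun x => x * (1 - ∫ v in (1 : ℝ)..x, r (v - 1) / max v 1) -
        ((∫ v in (0 : ℝ)..x, r v) - ∫ v in (0 : ℝ)..x - 1, r v)) _ x := fun x =>
      ((hasDerivAt_id x).mul ((c1.integral_hasStrictDerivAt 1 x).hasDerivAt.const_sub 1)).sub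
        ((h0.integral_hasStrictDerivAt 0 x).hasDerivAt.sub
          ((h0.integral_hasStrictDerivAt 0 (x - 1)).hasDerivAt.comp_sub_const x 1))
    have := constant_of_has_deriv_right_zero (fun x _ => (d x).continuousAt.continuousWithinAt)
      (fun x hx => by
        convert (d x).hasDerivWithinAt
        have := hx.1
        rw [h1 x, max_eq_left this]
        simp only [id]
        field_simp
        ring) u ⟨hu, le_rfl⟩
    rw [intervalIntegral.integral_interval_sub_left (h0.intervalIntegrable _ _)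
      (h0.intervalIntegrable _ _), intervalIntegral.integral_congr (a := 0) (b := 1)
      (g := fun _ => 1) fun v hv => h2 v (by simpa using hv.2)] at this
    rw [h1 u, max_eq_left hu]
    simpa [sub_eq_zero] using this
  have h4 : ∀ u, 0 ≤ r u := fun u => by_contra fun h => by
    have b : ∀ v, r v ≤ 0 → 1 ≤ v := fun v hv => by_contra fun h => by
      linarith [h2 v (not_le.1 h).le]
    have h4 := (isClosed_le h0 continuous_const).csInf_mem ⟨u, (not_le.1 h).le⟩ ⟨1, b⟩
    have h5 := intervalIntegral.intervalIntegral_pos_of_pos_on (h0.intervalIntegrable _ _)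
      (fun x hx => not_le.1 fun h => (csInf_le (s := {v | r v ≤ 0}) ⟨1, b⟩ h).not_gt hx.2)
      (sub_one_lt _)
    rw [← h3 _ (b _ h4)] at h5
    exact h5.not_ge (mul_nonpos_of_nonneg_of_nonpos (zero_le_one.trans (b _ h4)) h4)
  have h5 : ∀ a b, r a - r b = ∫ v in max a 1..max b 1, r (v - 1) / max v 1 := fun a b => by
    rw [← intervalIntegral.integral_interval_sub_left (c1.intervalIntegrable 1 _)
      (c1.intervalIntegrable _ _), h1 a, h1 b]
    ring
  have h6 : Antitone r := fun a b h => sub_nonneg.1 ((h5 a b).ge.trans'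
    (intervalIntegral.integral_nonneg (max_le_max_right _ h) fun v _ =>
      div_nonneg (h4 _) (by positivity)))
  refine ⟨r, h0, h2, h4, h6, fun a b ha h => ?_⟩
  have h7 := intervalIntegral.integral_mono_on (μ := volume) h
    (continuous_const (y := r (b - 1) / b).intervalIntegrable _ _) (c1.intervalIntegrable _ _)
    fun v hv => div_le_div₀ (h4 _) (h6 (sub_le_sub_right hv.2 1)) (by positivity)
      (max_le hv.2 (ha.trans h))
  have h8 := h5 a b
  rw [max_eq_left ha, max_eq_left (ha.trans h)] at h8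
  rw [intervalIntegral.integral_const, smul_eq_mul, ← h8] at h7
  rw [div_mul_eq_mul_div, mul_div_assoc]
  linarith

theorem kernel : ∃ K : ℝ → ℝ → ℝ, (∀ n, Measurable (K n)) ∧ (∀ n y, 0 ≤ K n y) ∧
    (∀ n y, 1 ≤ n → K n y ≤ 3) ∧ (∀ n y, 0 ≤ y → n * y ≤ 1 → 1 ≤ K n y) ∧
    (∀ n y, 1 ≤ n → K (n + 1) y ≤ K n y) ∧ ∀ n y, 1 ≤ n →
      K (n + 1) y + 1 / n * K (n + 1) (y - 1 / (n + 1)) ≤
        K n y + 3 / (n * (n + 1)) * K n (y - 1 / (n + 1)) := by
  obtain ⟨r, h0, h1, h2, h3, h4⟩ := dickman
  have h5 : ∀ u, r u ≤ 1 := fun u => (h3 (min_le_left u 1)).trans_eq (h1 _ (min_le_right _ _))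
  refine ⟨fun n y => if 0 ≤ y then r (n * y) + if n * y < 1 then 2 * y else 0 else 0,
    fun n => .ite measurableSet_Ici ((h0.measurable.comp (by fun_prop)).add (.ite
      (measurableSet_lt (by fun_prop) measurable_const) (by fun_prop) measurable_const))
      measurable_const, fun n y => ?_, fun n y hn => ?_, fun n y h h' => ?_, fun n y hn => ?_,
      fun n y hn => ?_⟩
  all_goals beta_reduce
  · have := h2 (n * y)
    split_ifs <;> positivity
  · have := h5 (n * y)
    split_ifs <;> nlinarith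
  · rw [if_pos h, h1 _ h']
    split_ifs <;> linarith
  · by_cases hy : 0 ≤ y
    · rw [if_pos hy, if_pos hy]
      have h6 := h3 (show n * y ≤ (n + 1) * y by nlinarith)
      have h7 : (if (n + 1) * y < 1 then 2 * y else 0) ≤ if n * y < 1 then 2 * y else 0 := by
        split_ifs with h8 h9
        · exact le_rfl
        · nlinarith
        · positivity
        · exact le_rfl
      linarith
    · rw [if_neg hy, if_neg hy]
  have n0 : 0 < n + 1 := by linarith
  have n1 : 0 < n := by linarith
  have e1 : (n + 1) * (y - 1 / (n + 1)) = (n + 1) * y - 1 := by field_simp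
  by_cases h : 0 ≤ y - 1 / (n + 1)
  · have y0 : 0 < y := (one_div_pos.2 n0).trans_le (sub_nonneg.1 h)
    have y1 : 1 ≤ (n + 1) * y := by nlinarith [mul_nonneg n0.le h]
    rw [if_pos y0.le, if_pos h, if_pos y0.le, if_pos h, if_neg y1.not_gt]
    set z := y - 1 / (n + 1)
    have a1 : r ((n + 1) * z) ≤ r (n * z) + if n * z < 1 then 2 * z else 0 :=
      le_add_of_le_of_nonneg (h3 (by nlinarith)) (by positivity)
    have a2 : (if (n + 1) * z < 1 then 2 * z else 0) ≤ 2 / (n + 1) * r ((n + 1) * z) := by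
      split_ifs with h'
      · rw [h1 _ h'.le, mul_one, le_div_iff₀ n0]
        linarith
      · exact mul_nonneg (by positivity) (h2 _)
    have a3 : r ((n + 1) * y) + 1 / (n + 1) * r ((n + 1) * z) ≤
        r (n * y) + if n * y < 1 then 2 * y else 0 := by
      split_ifs with h'
      · have : 1 / (n + 1) ≤ y := by rwa [div_le_iff₀' n0]
        rw [h1 _ h'.le]
        nlinarith [h5 ((n + 1) * y), h5 ((n + 1) * z), one_div_pos.2 n0]
      · have := h4 _ ((n + 1) * y) (not_lt.1 h') (by nlinarith)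
        rwa [show ((n + 1) * y - n * y) / ((n + 1) * y) = 1 / (n + 1) by field_simp; ring, ← e1,
          ← add_zero (r (n * y))] at this
    have a4 : 1 / n * (1 + 2 / (n + 1)) = 1 / (n + 1) + 3 / (n * (n + 1)) := by field_simp; ring
    grw [a2, ← a1, ← a3]
    linear_combination r ((n + 1) * z) * a4
  · rw [if_neg h, if_neg h, mul_zero, mul_zero, add_zero, add_zero]
    have y1 : (n + 1) * y < 1 := by nlinarith [mul_pos n0 (neg_pos.2 (not_le.1 h))]
    split_ifs with h6 h7
    · exact add_le_add_left (h3 (by nlinarith)) _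
    · nlinarith
    · rfl


/-- the correction coefficients -/
noncomputable def cc (p : ℕ → ℝ) (n : ℕ) : ℝ :=
  2 * max (1 / (n + 1) - p n) 0 + 4 * (max (p n - 1 / (n + 1)) 0 / (n + 1))

lemma cc_nonneg (p : ℕ → ℝ) (n : ℕ) : 0 ≤ cc p n := by
  unfold cc
  have h1 := le_max_right (1 / ((n : ℝ) + 1) - p n) 0
  have h2 := le_max_right (p n - 1 / ((n : ℝ) + 1)) 0
  positivity

/-- one step of the recursion -/
lemma step_ineq (p : ℕ → ℝ) (n : ℕ) (hn : 1 ≤ n) (hp1 : p n ≤ 1)
    (a b A B E : ℝ) (ha0 : 0 ≤ a) (hb0 : 0 ≤ b) (hE : 0 ≤ E)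
    (h : a + 1 / n * b ≤ A + 3 / (n * (n + 1)) * B) (haA : a ≤ A) (hbB : b ≤ B)
    (hA : n * A ≤ E) (hB : n * B ≤ E) :
    (n + 1) * ((1 - p n) * a + p n * b) ≤ (1 + (3 / (n * (n + 1)) + cc p n)) * E := by
  have n0 : (0 : ℝ) < n := by exact_mod_cast hn
  have n1 : (1 : ℝ) ≤ n := by exact_mod_cast hn
  have n2 : (0 : ℝ) < (n : ℝ) + 1 := by linarith
  have hc := cc_nonneg p n
  -- base inequality
  have hbase : (n + 1) * ((1 - 1 / ((n : ℝ) + 1)) * a + 1 / ((n : ℝ) + 1) * b) ≤
      (1 + 3 / (n * (n + 1))) * E := by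
    have e1 : (n + 1) * ((1 - 1 / ((n : ℝ) + 1)) * a + 1 / ((n : ℝ) + 1) * b) =
        n * (a + 1 / n * b) := by field_simp; ring
    rw [e1]
    have h3 : 0 ≤ 3 / ((n : ℝ) * (n + 1)) := by positivity
    calc n * (a + 1 / n * b) ≤ n * (A + 3 / (n * (n + 1)) * B) := mul_le_mul_of_nonneg_left h n0.le
      _ = n * A + 3 / (n * (n + 1)) * (n * B) := by ring
      _ ≤ E + 3 / (n * (n + 1)) * E := add_le_add hA (mul_le_mul_of_nonneg_left hB h3)
      _ = _ := by ring
  rcases le_total (1 / ((n : ℝ) + 1)) (p n) with hle | hle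
  · -- larger probability
    obtain ⟨d, hd⟩ : ∃ d, d = p n - 1 / ((n : ℝ) + 1) := ⟨_, rfl⟩
    have hd0 : 0 ≤ d := by rw [hd]; linarith
    obtain ⟨q, hq⟩ : ∃ q, q = d * ((n + 1) / n) := ⟨_, rfl⟩
    have hq0 : 0 ≤ q := by rw [hq]; positivity
    have hq1 : q ≤ 1 := by
      rw [hq, mul_div_assoc', div_le_one n0]
      have : d * (n + 1) = p n * (n + 1) - 1 := by rw [hd]; field_simp
      rw [this]
      nlinarith
    have e1 : (n + 1) * ((1 - p n) * a + p n * b) =
        (1 - q) * ((n + 1) * ((1 - 1 / ((n : ℝ) + 1)) * a + 1 / ((n : ℝ) + 1) * b)) +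
          q * ((n + 1) * b) := by
      have : p n = d + 1 / ((n : ℝ) + 1) := by rw [hd]; ring
      rw [this, hq]
      field_simp
      ring
    have e2 : (n + 1) * b ≤ (1 + 1 / n) * E := by
      have h4 : (n + 1) * b = (1 + 1 / n) * (n * b) := by field_simp
      rw [h4]
      have h5 : n * b ≤ E := (mul_le_mul_of_nonneg_left hbB n0.le).trans hB
      exact mul_le_mul_of_nonneg_left h5 (by positivity)
    have e3 : q * (1 / n) ≤ cc p n := by
      unfold cc
      rw [max_eq_right (by linarith), max_eq_left (by linarith), ← hd, hq]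
      rw [mul_zero, zero_add]
      have : d * ((n + 1) / n) * (1 / n) = d / (n + 1) * (((n + 1) / n) ^ 2) := by field_simp
      rw [this]
      have h6 : ((n : ℝ) + 1) / n ≤ 2 := by rw [div_le_iff₀ n0]; linarith
      have h7 : (((n : ℝ) + 1) / n) ^ 2 ≤ 4 := by
        have : 0 ≤ ((n : ℝ) + 1) / n := by positivity
        nlinarith
      calc d / (n + 1) * (((n + 1) / n) ^ 2) ≤ d / (n + 1) * 4 :=
            mul_le_mul_of_nonneg_left h7 (by positivity)
        _ = _ := by ring
    rw [e1]
    have h8 : 0 ≤ 3 / ((n : ℝ) * (n + 1)) := by positivity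
    calc (1 - q) * ((n + 1) * ((1 - 1 / ((n : ℝ) + 1)) * a + 1 / ((n : ℝ) + 1) * b)) +
          q * ((n + 1) * b)
        ≤ (1 - q) * ((1 + 3 / (n * (n + 1))) * E) + q * ((1 + 1 / n) * E) :=
          add_le_add (mul_le_mul_of_nonneg_left hbase (by linarith))
            (mul_le_mul_of_nonneg_left e2 hq0)
      _ = (1 + (1 - q) * (3 / (n * (n + 1))) + q * (1 / n)) * E := by ring
      _ ≤ (1 + (3 / (n * (n + 1)) + cc p n)) * E := by
          apply mul_le_mul_of_nonneg_right _ hE
          nlinarith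
  · -- smaller probability
    obtain ⟨d, hd⟩ : ∃ d, d = 1 / ((n : ℝ) + 1) - p n := ⟨_, rfl⟩
    have hd0 : 0 ≤ d := by rw [hd]; linarith
    have e1 : (n + 1) * ((1 - p n) * a + p n * b) =
        (n + 1) * ((1 - 1 / ((n : ℝ) + 1)) * a + 1 / ((n : ℝ) + 1) * b) +
          d * ((n + 1) * a) - d * ((n + 1) * b) := by
      rw [hd]; ring
    have e2 : (n + 1) * a ≤ 2 * E := by
      have h5 : n * a ≤ E := (mul_le_mul_of_nonneg_left haA n0.le).trans hA
      have h6 : a ≤ n * a := le_mul_of_one_le_left ha0 n1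
      linarith
    have e3 : cc p n = 2 * d := by
      unfold cc
      rw [max_eq_left (by linarith), max_eq_right (by linarith), ← hd]
      simp
    rw [e1, e3]
    have h7 : 0 ≤ d * ((n + 1) * b) := by positivity
    have h8 := mul_le_mul_of_nonneg_left e2 hd0
    linarith

section

variable {Ω : Type*} [MeasurableSpace Ω] (P : Measure Ω) [IsProbabilityMeasure P]
  (I : ℕ → Ω → ℝ) (p : ℕ → ℝ)

theorem summ (hm : ∀ n, Measurable (I n))
    (hv : ∀ n ω, I n ω = 0 ∨ I n ω = 1) (hp : ∀ n, P.real {ω | I n ω = 1} = p n)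
    (hsum : Summable fun n => p n / ((n : ℝ) + 1)) :
    ∀ᵐ ω ∂P, Summable fun n => I n ω / ((n : ℝ) + 1) := by
  have x1 : ∀ n ω, 0 ≤ I n ω / ((n : ℝ) + 1) := fun n ω =>
    div_nonneg (by rcases hv n ω with h | h <;> simp [h]) (by positivity)
  have i0 : ∀ n, Integrable (I n) P := fun n => .of_bound (hm n).aestronglyMeasurable 1
    (.of_forall fun ω => by rcases hv n ω with h | h <;> simp [h])
  have i1 : ∀ n, ∫ ω, I n ω ∂P = p n := fun n => by
    rw [← hp, ← integral_indicator_one (s := {ω | I n ω = 1}) (hm n (measurableSet_singleton 1))]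
    refine integral_congr_ae (.of_forall fun ω => ?_)
    rcases hv n ω with h | h <;> simp [h]
  have h1 : ∫⁻ ω, ∑' n, ENNReal.ofReal (I n ω / ((n : ℝ) + 1)) ∂P ≠ ⊤ := by
    rw [lintegral_tsum fun n => ((hm n).div_const _).ennreal_ofReal.aemeasurable, tsum_congr fun n =>
      (ofReal_integral_eq_lintegral_ofReal ((i0 n).div_const _) (.of_forall (x1 n))).symm]
    refine Summable.tsum_ofReal_ne_top ?_
    simpa [integral_div, i1] using hsum
  filter_upwards [ae_lt_top (.tsum fun n => ((hm n).div_const _).ennreal_ofReal) h1] with ω h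
  simpa [ENNReal.toReal_ofReal (x1 _ ω)] using ENNReal.summable_toReal h.ne

theorem upper (hm : ∀ n, Measurable (I n)) (hi : iIndepFun I P)
    (hv : ∀ n ω, I n ω = 0 ∨ I n ω = 1) (hp : ∀ n, P.real {ω | I n ω = 1} = p n)
    (hsum : Summable fun n => p n / ((n : ℝ) + 1)) (hc : Summable (cc p)) (A : Set ℝ) :
    P {ω | ∑' n, I n ω / ((n : ℝ) + 1) ∈ A} ≤
      ENNReal.ofReal (3 * Real.exp (3 + ∑' n, cc p n)) * volume A := by
  obtain ⟨K, k0, k1, k2, k3, k5, k4⟩ := kernel
  have hp1 : ∀ n, p n ≤ 1 := fun n => by rw [← hp]; exact measureReal_le_one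
  set X : ℕ → Ω → ℝ := fun n ω => I n ω / (n + 1) with hX
  have x0 : ∀ n, Measurable (X n) := fun n => (hm n).div_const _
  have x1 : ∀ n ω, 0 ≤ X n ω := fun n ω =>
    div_nonneg (by rcases hv n ω with h | h <;> simp [h]) (by positivity)
  have x2 : iIndepFun X P := hi.comp (fun n t => t / (n + 1 : ℝ)) fun n => by fun_prop
  have i0 : ∀ n, Integrable (I n) P := fun n => .of_bound (hm n).aestronglyMeasurable 1
    (.of_forall fun ω => by rcases hv n ω with h | h <;> simp [h])
  have i1 : ∀ n, ∫ ω, I n ω ∂P = p n := fun n => by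
    rw [← hp, ← integral_indicator_one (s := {ω | I n ω = 1}) (hm n (measurableSet_singleton 1))]
    refine integral_congr_ae (.of_forall fun ω => ?_)
    rcases hv n ω with h | h <;> simp [h]
  set S : ℕ → Ω → ℝ := fun n => ∑ j ∈ Finset.range n, X j with hS
  have s0 : ∀ n, Measurable (S n) := fun n => by
    simpa only [hS, Finset.sum_fn] using Finset.measurable_sum _ fun j _ => x0 j
  have s1 : ∀ (m : ℝ) n x, 1 ≤ m → Integrable (fun ω => K m (x - S n ω)) P := fun m n x h =>
    .of_bound ((k0 m).comp ((s0 n).const_sub x)).aestronglyMeasurable 3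
      (.of_forall fun ω => (abs_of_nonneg (k1 _ _)).trans_le (k2 _ _ h))
  have e : ∀ n : ℕ, 1 ≤ n → ∀ x, n * ∫ ω, K n (x - S n ω) ∂P ≤
      3 * Real.exp (3 - 3 / n + ∑ j ∈ Finset.range n, cc p j) := by
    intro n hn
    induction n, hn using Nat.le_induction with
    | base =>
      intro x
      have h0 := cc_nonneg p 0
      have h1 := Real.one_le_exp h0
      have h2 := integral_mono (s1 1 1 x le_rfl) (integrable_const (3 : ℝ)) fun ω => k2 _ _ le_rfl
      simp only [integral_const, probReal_univ, one_smul] at h2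
      simp only [Nat.cast_one, div_one, sub_self, zero_add, Finset.range_one, Finset.sum_singleton,
        one_mul]
      linarith
    | succ n hn ih =>
      intro x
      have n1 : (1 : ℝ) ≤ n := by exact_mod_cast hn
      have n0 : (0 : ℝ) < n := by linarith
      have n2 : (1 : ℝ) ≤ n + 1 := by linarith
      have h1 : ∀ x, ∫ ω, K (n + 1) (x - S n ω) * I n ω ∂P =
          (∫ ω, K (n + 1) (x - S n ω) ∂P) * p n := fun x => by
        have := (x2.indepFun_sum_range_succ x0 n).integral_fun_comp_mul_comp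
          (f := fun t => K (n + 1) (x - t)) (g := fun t => t * (n + 1)) (s0 n).aemeasurable
          (x0 n).aemeasurable ((k0 _).comp (by fun_prop)).aestronglyMeasurable (by fun_prop)
        simpa only [hX, div_mul_cancel₀ _ (show (n + 1 : ℝ) ≠ 0 by positivity), i1] using this
      have h2 : ∀ x, Integrable (fun ω => K (n + 1) (x - S n ω) * I n ω) P := fun x =>
        (s1 _ n x n2).mul_bdd (c := 1) (hm n).aestronglyMeasurable
          (.of_forall fun ω => by rcases hv n ω with h | h <;> simp [h])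
      have h3 : ∫ ω, K (n + 1) (x - S (n + 1) ω) ∂P = ∫ ω, (K (n + 1) (x - S n ω) -
          K (n + 1) (x - S n ω) * I n ω + K (n + 1) (x - 1 / (n + 1) - S n ω) * I n ω) ∂P :=
        integral_congr_ae (.of_forall fun ω => by
          rcases hv n ω with h | h <;> simp [hS, hX, Finset.sum_range_succ, h, sub_sub, add_comm])
      have h4 := integral_mono (((s1 _ n x n2).add ((s1 _ n (x - 1 / (n + 1)) n2).const_mul (1 / n))))
        ((s1 _ n x n1).add ((s1 _ n (x - 1 / (n + 1)) n1).const_mul (3 / (n * (n + 1)))))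
        fun ω => by simpa only [Pi.add_apply, sub_right_comm x] using k4 n (x - S n ω) n1
      simp only [Pi.add_apply] at h4
      rw [integral_add (s1 _ n x n2) ((s1 _ n _ n2).const_mul _), integral_add (s1 _ n x n1)
        ((s1 _ n _ n1).const_mul _), integral_const_mul, integral_const_mul] at h4
      have h5 := step_ineq p n hn (hp1 n) _ _ _ _
        (3 * Real.exp (3 - 3 / n + ∑ j ∈ Finset.range n, cc p j))
        (integral_nonneg fun ω => k1 (n + 1) (x - S n ω))
        (integral_nonneg fun ω => k1 (n + 1) (x - 1 / (n + 1) - S n ω)) (by positivity) h4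
        (integral_mono (s1 _ n x n2) (s1 _ n x n1) fun ω => k5 _ _ n1)
        (integral_mono (s1 _ n _ n2) (s1 _ n _ n1) fun ω => k5 _ _ n1) (ih x)
        (ih (x - 1 / (n + 1)))
      push_cast
      rw [h3, integral_add ((s1 _ n x n2).sub' (h2 _)) (h2 _), integral_sub (s1 _ n x n2) (h2 _), h1,
        h1]
      have h6 : (∫ ω, K (n + 1) (x - S n ω) ∂P) - (∫ ω, K (n + 1) (x - S n ω) ∂P) * p n +
          (∫ ω, K (n + 1) (x - 1 / (n + 1) - S n ω) ∂P) * p n =
          (1 - p n) * (∫ ω, K (n + 1) (x - S n ω) ∂P) +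
          p n * (∫ ω, K (n + 1) (x - 1 / (n + 1) - S n ω) ∂P) := by ring
      rw [h6]
      refine h5.trans ?_
      have e9 : Real.exp (3 - 3 / (n + 1 : ℝ) + (∑ j ∈ Finset.range n, cc p j + cc p n)) =
          Real.exp (3 / (n * (n + 1)) + cc p n) *
            Real.exp (3 - 3 / n + ∑ j ∈ Finset.range n, cc p j) := by
        rw [← Real.exp_add]
        congr 1
        field_simp
        ring
      rw [Finset.sum_range_succ, e9]
      have h7 := Real.add_one_le_exp (3 / ((n : ℝ) * (n + 1)) + cc p n)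
      have h8 : 0 ≤ 3 * Real.exp (3 - 3 / n + ∑ j ∈ Finset.range n, cc p j) := by positivity
      calc (1 + (3 / ((n : ℝ) * (n + 1)) + cc p n)) *
            (3 * Real.exp (3 - 3 / n + ∑ j ∈ Finset.range n, cc p j)) ≤
            Real.exp (3 / ((n : ℝ) * (n + 1)) + cc p n) *
            (3 * Real.exp (3 - 3 / n + ∑ j ∈ Finset.range n, cc p j)) :=
            mul_le_mul_of_nonneg_right (by linarith) h8
        _ = _ := by ring
  set G := 3 * Real.exp (3 + ∑' n, cc p n) with hG
  have G0 : 0 < G := by positivity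
  have e1 : ∀ n : ℕ, 1 ≤ n → ∀ (a : ℝ) (M : ℕ),
      P.real {ω | S n ω ∈ Ioc a (a + M / n)} ≤ M * (G / n) := fun n hn a M => by
    have n0 : (0 : ℝ) < n := by exact_mod_cast hn
    induction M with
    | zero => simp
    | succ M ih =>
      have h1 : P.real {ω | S n ω ∈ Ioc (a + M / n) (a + (M + 1) / n)} ≤ G / n := by
        rw [← integral_indicator_one (s := {ω | S n ω ∈ _}) (s0 n measurableSet_Ioc),
          le_div_iff₀' n0]
        refine le_trans ?_ ((e n hn (a + (M + 1) / n)).trans (by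
          rw [hG]
          have h9 := hc.sum_le_tsum (Finset.range n) fun j _ => cc_nonneg p j
          have h10 : 0 ≤ 3 / (n : ℝ) := by positivity
          gcongr
          linarith))
        refine mul_le_mul_of_nonneg_left (integral_mono ((integrable_const _).indicator
          (s0 n measurableSet_Ioc)) (s1 _ _ _ (by exact_mod_cast hn)) fun ω => ?_) n0.le
        refine indicator_apply_le' (fun h => k3 _ _ (sub_nonneg.2 h.2) ?_) fun _ => k1 _ _
        have := mul_lt_mul_of_pos_left h.1 n0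
        field_simp at this ⊢
        linarith
      push_cast
      refine le_trans ?_ (((measureReal_union_le _ _).trans (add_le_add ih h1)).trans_eq (by ring))
      exact measureReal_mono fun ω h => Ioc_subset_Ioc_union_Ioc (a := a) h
  have a1 : ∀ᵐ ω ∂P, Summable fun n => X n ω := summ P I p hm hv hp hsum
  have a2 : ∀ a b : ℝ, P {ω | ∑' n, X n ω ∈ Ioc a b} ≤ ENNReal.ofReal (G * (b - a)) := by
    intro a b
    rcases le_or_gt b a with h | h
    · simp [h]
    refine (measure_mono_ae (t := ⋃ N, {ω | ∀ n ≥ N, S n ω ∈ Ioc a b}) ?_).trans ?_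
    · filter_upwards [a1] with ω h1 h2
      obtain ⟨N, hN⟩ := eventually_atTop.1 (h1.hasSum.tendsto_sum_nat.eventually_const_lt h2.1)
      exact mem_iUnion.2 ⟨N, fun n hn => by
        simpa [hS] using ⟨hN n hn, (h1.sum_le_tsum _ fun j _ => x1 j ω).trans h2.2⟩⟩
    rw [Monotone.measure_iUnion (s := fun N => {ω | ∀ n ≥ N, S n ω ∈ Ioc a b})
      fun M N h ω h1 n hn => h1 n (h.trans hn), iSup_le_iff]
    intro N
    rw [← ofReal_measureReal]
    refine ENNReal.ofReal_le_ofReal (ge_of_tendsto (f := fun n : ℕ => G * (b - a + 1 / n))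
      (by simpa using (tendsto_one_div_atTop_nhds_zero_nat.const_add (b - a)).const_mul G) ?_)
    filter_upwards [eventually_ge_atTop N, eventually_ge_atTop 1] with n h1 h2
    have n0 : (0 : ℝ) < n := by exact_mod_cast h2
    have h3 := Nat.le_ceil ((b - a) * n)
    have h4 := Nat.ceil_lt_add_one (mul_pos (sub_pos.2 h) n0).le
    refine (measureReal_mono fun ω h => ?_).trans ((e1 n h2 a ⌈(b - a) * n⌉₊).trans ?_)
    · exact ⟨(h n h1).1, (h n h1).2.trans (sub_le_iff_le_add'.1 ((le_div_iff₀ n0).2 h3))⟩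
    · grw [h4]
      field_simp
      rfl
  have a3 : ENNReal.ofReal G ≠ 0 := by simpa using G0
  have a4 := (OuterMeasure.le_ofFunction (m := StieltjesFunction.id.length)
    (m_empty := StieltjesFunction.id.length_empty)
    (μ := (ENNReal.ofReal G)⁻¹ • P.toOuterMeasure.map fun ω => ∑' n, X n ω)).2 (fun s => by
      rw [StieltjesFunction.length_eq]
      refine le_iInf fun a => le_iInf fun b => le_iInf fun h => ?_
      rw [OuterMeasure.smul_apply, smul_eq_mul, ENNReal.inv_mul_le_iff a3 ENNReal.ofReal_ne_top,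
        ← ENNReal.ofReal_mul G0.le]
      exact (measure_mono fun ω h' => h ⟨h', not_isBot _⟩).trans (a2 a b)) A
  rw [OuterMeasure.smul_apply, smul_eq_mul, ENNReal.inv_mul_le_iff a3 ENNReal.ofReal_ne_top] at a4
  rw [Real.volume_val, StieltjesFunction.measure_def]
  exact a4

end

end KS6_63.RecHarm
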