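import Pool.Agent.KS6_63.RecHarm

/-!
Random harmonic series: lower bounds for the mass of short intervals.
-/

namespace KS6_63.RecHarm

open Filter Topology Set MeasureTheory ProbabilityTheory

section

variable {Ω : Type*} [MeasurableSpace Ω] (P : Measure Ω) [IsProbabilityMeasure P]
  (I : ℕ → Ω → ℝ) (p : ℕ → ℝ)

omit [IsProbabilityMeasure P] in
/-- joint probabilities -/
lemma joint (hi : iIndepFun I P) (g : ℕ → ℝ) (s : Finset ℕ) :
    P.real (⋂ j ∈ s, {ω | I j ω = g j}) = ∏ j ∈ s, P.real {ω | I j ω = g j} := by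
  have h := hi.measure_inter_preimage_eq_mul s (sets := fun j => {g j})
    (fun j _ => measurableSet_singleton _)
  have h1 : ∀ j, (I j) ⁻¹' {g j} = {ω | I j ω = g j} := fun j => rfl
  simp only [h1] at h
  rw [measureReal_def, h, ENNReal.toReal_prod]
  rfl

/-- a lower bound for the mass of short intervals -/
theorem lower (hm : ∀ n, Measurable (I n)) (hi : iIndepFun I P)
    (hv : ∀ n ω, I n ω = 0 ∨ I n ω = 1) (hp : ∀ n, P.real {ω | I n ω = 1} = p n)
    (hsum : Summable fun n => p n / ((n : ℝ) + 1)) (N : ℕ) (hN : 1 ≤ N)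
    (hle : ∀ n, N ≤ n → p n ≤ 1 / ((n : ℝ) + 1)) (M : ℕ) (hM : N ≤ M) :
    ∃ s0 : ℝ, (1 / 2) ^ N * (∏ j ∈ Finset.Ico N M, (1 - p j)) / 2 ≤
      P.real {ω | ∑' n, I n ω / ((n : ℝ) + 1) ∈ Icc s0 (s0 + 2 / M)} := by
  have hM0 : (0 : ℝ) < M := by
    have : 0 < M := by omega
    exact_mod_cast this
  have hmI : ∀ n, MeasurableSet {ω | I n ω = 1} := fun n => hm n (measurableSet_singleton 1)
  have hp0 : ∀ n, P.real {ω | I n ω = 0} = 1 - p n := by
    intro n
    have h1 : {ω | I n ω = 0} = {ω | I n ω = 1}ᶜ := by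
      ext ω
      simp only [mem_ofPred_eq, mem_compl_iff]
      rcases hv n ω with h | h <;> simp [h]
    rw [h1, probReal_compl_eq_one_sub (hmI n), hp]
  have hpn : ∀ n, 0 ≤ p n := fun n => by rw [← hp]; exact measureReal_nonneg
  have hp1 : ∀ n, p n ≤ 1 := fun n => by rw [← hp]; exact measureReal_le_one
  obtain ⟨g, hg⟩ : ∃ g : ℕ → ℝ, ∀ j, g j = if j < N ∧ 1 / 2 ≤ p j then 1 else 0 :=
    ⟨_, fun j => rfl⟩
  have hg1 : ∀ j, j < N → 1 / 2 ≤ P.real {ω | I j ω = g j} := by
    intro j hj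
    by_cases h : 1 / 2 ≤ p j
    · rw [hg, if_pos ⟨hj, h⟩, hp]
      exact h
    · rw [hg, if_neg (fun hc => h hc.2), hp0]
      linarith
  have hg2 : ∀ j, N ≤ j → P.real {ω | I j ω = g j} = 1 - p j := by
    intro j hj
    rw [hg, if_neg (fun hc => absurd hc.1 (by omega)), hp0]
  set F : Set Ω := ⋂ j ∈ Finset.range M, {ω | I j ω = g j} with hF
  have hFm : MeasurableSet F :=
    Finset.measurableSet_biInter _ fun j _ => hm j (measurableSet_singleton _)
  have hPF : (1 / 2) ^ N * (∏ j ∈ Finset.Ico N M, (1 - p j)) ≤ P.real F := by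
    rw [hF, joint P I hi, ← Finset.prod_range_mul_prod_Ico _ hM]
    refine mul_le_mul ?_ (le_of_eq ?_) (Finset.prod_nonneg fun j _ => by linarith [hp1 j])
      (Finset.prod_nonneg fun j _ => measureReal_nonneg)
    · calc (1 / 2 : ℝ) ^ N = ∏ j ∈ Finset.range N, (1 / 2 : ℝ) := by simp
        _ ≤ _ := Finset.prod_le_prod (fun _ _ => by norm_num) fun j hj =>
            hg1 j (Finset.mem_range.1 hj)
    · refine Finset.prod_congr rfl fun j hj => ?_
      rw [hg2 j (Finset.mem_Ico.1 hj).1]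
  -- the tail
  set X : ℕ → Ω → ℝ := fun n ω => I n ω / (n + 1) with hX
  have x1 : ∀ n ω, 0 ≤ X n ω := fun n ω =>
    div_nonneg (by rcases hv n ω with h | h <;> simp [h]) (by positivity)
  have hae := summ P I p hm hv hp hsum
  have hjoint : ∀ n, M ≤ n → P.real (F ∩ {ω | I n ω = 1}) = P.real F * p n := by
    intro n hn
    have h1 := joint P I hi (Function.update g n 1) (insert n (Finset.range M))
    have hnot : n ∉ Finset.range M := by simpa using hn
    rw [Finset.prod_insert hnot, Finset.set_biInter_insert] at h1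
    have h2 : ∀ j ∈ Finset.range M, {ω | I j ω = Function.update g n 1 j} = {ω | I j ω = g j} := by
      intro j hj
      have hne : j ≠ n := fun h => hnot (by rw [← h]; exact hj)
      rw [Function.update_of_ne hne]
    rw [Finset.prod_congr rfl fun j hj => congrArg P.real (h2 j hj)] at h1
    have h3 : (⋂ j ∈ Finset.range M, {ω | I j ω = Function.update g n 1 j}) = F := by
      rw [hF]
      exact iInter₂_congr h2
    rw [h3, Function.update_self, hp, ← joint P I hi, ← hF, inter_comm] at h1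
    rw [h1, mul_comm]
  -- expectation of the tail on F
  have hexp : ∫⁻ ω in F, ∑' n, ENNReal.ofReal (X (n + M) ω) ∂P ≤
      ENNReal.ofReal (P.real F * (1 / M)) := by
    rw [lintegral_tsum fun n => ((hm (n + M)).div_const _).ennreal_ofReal.aemeasurable]
    have h1 : ∀ n, ∫⁻ ω in F, ENNReal.ofReal (X (n + M) ω) ∂P =
        ENNReal.ofReal (P.real F * (p (n + M) / (((n + M : ℕ) : ℝ) + 1))) := by
      intro n
      have h2 : ∀ ω, ENNReal.ofReal (X (n + M) ω) =
          ({ω | I (n + M) ω = 1} : Set Ω).indicator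
            (fun _ => ENNReal.ofReal (1 / (((n + M : ℕ) : ℝ) + 1))) ω := by
        intro ω
        rcases hv (n + M) ω with h | h
        · rw [indicator_of_notMem (by simp [h])]
          simp [hX, h]
        · rw [indicator_of_mem (by simpa using h)]
          simp [hX, h]
      rw [lintegral_congr h2, lintegral_indicator_const (hmI _), Measure.restrict_apply (hmI _),
        inter_comm, ← ofReal_measureReal, hjoint _ (by omega), ← ENNReal.ofReal_mul (by positivity)]
      congr 1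
      ring
    rw [tsum_congr h1]
    refine ENNReal.tsum_le_of_sum_range_le fun K => ?_
    rw [← ENNReal.ofReal_sum_of_nonneg fun n _ => mul_nonneg measureReal_nonneg
      (div_nonneg (hpn _) (by positivity))]
    apply ENNReal.ofReal_le_ofReal
    rw [← Finset.mul_sum]
    apply mul_le_mul_of_nonneg_left _ measureReal_nonneg
    have h3 : ∑ n ∈ Finset.range K, p (n + M) / (((n + M : ℕ) : ℝ) + 1) ≤
        1 / (M : ℝ) - 1 / ((K : ℝ) + M) := by
      induction K with
      | zero => simp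
      | succ K ih =>
        rw [Finset.sum_range_succ]
        have h4 := hle (K + M) (by omega)
        have h5 : (0 : ℝ) < (K : ℝ) + M := by positivity
        have h6 : p (K + M) / (((K + M : ℕ) : ℝ) + 1) ≤ 1 / ((K : ℝ) + M) - 1 / ((K : ℝ) + M + 1) := by
          push_cast at h4 ⊢
          calc p (K + M) / ((K : ℝ) + M + 1) ≤ (1 / ((K : ℝ) + M + 1)) / ((K : ℝ) + M + 1) := by
                gcongr
            _ ≤ 1 / ((K : ℝ) + M) - 1 / ((K : ℝ) + M + 1) := by
                rw [div_sub_div _ _ (by positivity) (by positivity), div_div, div_le_div_iff₀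
                  (by positivity) (by positivity)]
                nlinarith
        push_cast
        have h7 : (K : ℝ) + 1 + M = K + M + 1 := by ring
        rw [h7]
        push_cast at h6 ih
        linarith
    have h8 : 0 ≤ 1 / ((K : ℝ) + M) := by positivity
    linarith
  -- Markov
  obtain ⟨s0, hs0⟩ : ∃ s0 : ℝ, s0 = ∑ j ∈ Finset.range M, g j / ((j : ℝ) + 1) := ⟨_, rfl⟩
  refine ⟨s0, ?_⟩
  set B : Set Ω := {ω | ENNReal.ofReal (2 / M) ≤ ∑' n, ENNReal.ofReal (X (n + M) ω)} with hB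
  have hmk : (P.restrict F) B ≤ ENNReal.ofReal (P.real F / 2) := by
    have h1 := mul_meas_ge_le_lintegral₀ (μ := P.restrict F)
      (f := fun ω => ∑' n, ENNReal.ofReal (X (n + M) ω))
      (AEMeasurable.tsum fun n => ((hm (n + M)).div_const _).ennreal_ofReal.aemeasurable)
      (ENNReal.ofReal (2 / M))
    have h2 := h1.trans hexp
    have h3 : ENNReal.ofReal (P.real F * (1 / M)) =
        ENNReal.ofReal (2 / M) * ENNReal.ofReal (P.real F / 2) := by
      rw [← ENNReal.ofReal_mul (by positivity)]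
      congr 1
      field_simp
    rw [h3] at h2
    exact (ENNReal.mul_le_mul_iff_right (by
      rw [Ne, ENNReal.ofReal_eq_zero, not_le]; positivity) ENNReal.ofReal_ne_top).1 h2
  have hcov : P F ≤ (P.restrict F) B +
      P {ω | ∑' n, I n ω / ((n : ℝ) + 1) ∈ Icc s0 (s0 + 2 / M)} := by
    have hBm : MeasurableSet B :=
      measurableSet_le measurable_const
        (Measurable.tsum fun n => ((hm (n + M)).div_const _).ennreal_ofReal)
    rw [Measure.restrict_apply hBm]
    refine (measure_mono_ae ?_).trans (measure_union_le _ _)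
    filter_upwards [hae] with ω hω hωF
    by_cases hb : ω ∈ B
    · exact Or.inl ⟨hb, hωF⟩
    · right
      have h1 : ∑ j ∈ Finset.range M, X j ω = s0 := by
        rw [hs0]
        refine Finset.sum_congr rfl fun j hj => ?_
        have h2 : I j ω = g j := by
          have := mem_iInter₂.1 hωF j hj
          exact this
        show I j ω / (j + 1) = _
        rw [h2]
      have h2 : ∑' n, X n ω = s0 + ∑' n, X (n + M) ω := by
        rw [← h1]
        exact (hω.sum_add_tsum_nat_add M).symm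
      have hsh : Summable fun n => X (n + M) ω := (summable_nat_add_iff M).2 hω
      have h3 : ∑' n, X (n + M) ω ≤ 2 / M := by
        have h4 : ENNReal.ofReal (∑' n, X (n + M) ω) ≤ ENNReal.ofReal (2 / M) := by
          rw [ENNReal.ofReal_tsum_of_nonneg (fun n => x1 _ ω) hsh]
          exact (not_le.1 hb).le
        exact (ENNReal.ofReal_le_ofReal_iff (by positivity)).1 h4
      have h5 : 0 ≤ ∑' n, X (n + M) ω := tsum_nonneg fun n => x1 _ ω
      show ∑' n, X n ω ∈ Icc s0 (s0 + 2 / M)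
      rw [h2]
      constructor <;> linarith
  have h1 := hcov.trans (add_le_add_left hmk _)
  have h2 : P.real F ≤ P.real F / 2 +
      P.real {ω | ∑' n, I n ω / ((n : ℝ) + 1) ∈ Icc s0 (s0 + 2 / M)} := by
    have h3 := ENNReal.toReal_mono (by finiteness) h1
    rw [ENNReal.toReal_add (by finiteness) (by finiteness), ENNReal.toReal_ofReal (by positivity)] at h3
    exact h3
  linarith

/-- growth of the product -/
lemma prod_grow (N : ℕ) (hN : 1 ≤ N)
    (hle : ∀ n, N ≤ n → p n ≤ 1 / ((n : ℝ) + 1)) (M : ℕ) (hM : N ≤ M) :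
    1 + ∑ j ∈ Finset.Ico N M, (1 / ((j : ℝ) + 1) - p j) ≤ M * ∏ j ∈ Finset.Ico N M, (1 - p j) := by
  induction M, hM using Nat.le_induction with
  | base => simp; exact_mod_cast hN
  | succ M hM ih =>
    rw [Finset.sum_Ico_succ_top hM, Finset.prod_Ico_succ_top hM]
    obtain ⟨d, hd⟩ : ∃ d, d = 1 / ((M : ℝ) + 1) - p M := ⟨_, rfl⟩
    have hd0 : 0 ≤ d := by rw [hd]; linarith [hle M hM]
    obtain ⟨s, hs⟩ : ∃ s, s = ∑ j ∈ Finset.Ico N M, (1 / ((j : ℝ) + 1) - p j) := ⟨_, rfl⟩
    have hs0 : 0 ≤ s := by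
      rw [hs]
      exact Finset.sum_nonneg fun j hj => by linarith [hle j (Finset.mem_Ico.1 hj).1]
    obtain ⟨π, hπ⟩ : ∃ π, π = ∏ j ∈ Finset.Ico N M, (1 - p j) := ⟨_, rfl⟩
    rw [← hs, ← hπ] at ih
    rw [← hs, ← hπ, ← hd]
    have hM0 : (1 : ℝ) ≤ M := by
      have : 1 ≤ M := by omega
      exact_mod_cast this
    have h1 : (((M + 1 : ℕ) : ℝ)) * (π * (1 - p M)) = (M + (M + 1) * d) * π := by
      have : p M = 1 / ((M : ℝ) + 1) - d := by rw [hd]; ring
      rw [this]
      push_cast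
      field_simp
      ring
    rw [h1]
    have hπ0 : 0 < π := by
      by_contra hc
      have : M * π ≤ 0 := mul_nonpos_of_nonneg_of_nonpos (by linarith) (not_lt.1 hc)
      linarith
    have h2 : (M + (M + 1) * d) * π ≥ (1 + d) * (M * π) := by
      have : 0 ≤ d * π := by positivity
      nlinarith
    nlinarith

/-- unbounded density if the deficits are not summable -/
theorem not_bounded (hm : ∀ n, Measurable (I n)) (hi : iIndepFun I P)
    (hv : ∀ n ω, I n ω = 0 ∨ I n ω = 1) (hp : ∀ n, P.real {ω | I n ω = 1} = p n)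
    (hsum : Summable fun n => p n / ((n : ℝ) + 1))
    (hle : ∀ᶠ n : ℕ in atTop, p n ≤ 1 / ((n : ℝ) + 1))
    (hns : ¬ Summable fun n : ℕ => 1 / ((n : ℝ) + 1) - p n) (C : NNReal) :
    ∃ A : Set ℝ, MeasurableSet A ∧
      C * volume A < P {ω | ∑' n, I n ω / ((n : ℝ) + 1) ∈ A} := by
  obtain ⟨N0, hN0⟩ := eventually_atTop.1 hle
  obtain ⟨N, hN⟩ : ∃ N, N = N0 + 1 := ⟨_, rfl⟩
  have hle' : ∀ n, N ≤ n → p n ≤ 1 / ((n : ℝ) + 1) := fun n hn => hN0 n (by omega)
  have hns' : ¬ Summable fun n : ℕ => 1 / (((n + N : ℕ) : ℝ) + 1) - p (n + N) := by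
    intro h
    exact hns ((summable_nat_add_iff (f := fun n : ℕ => 1 / ((n : ℝ) + 1) - p n) N).1 h)
  have hnn : ∀ n, 0 ≤ 1 / (((n + N : ℕ) : ℝ) + 1) - p (n + N) := fun n => by
    linarith [hle' (n + N) (by omega)]
  have ht := (not_summable_iff_tendsto_nat_atTop_of_nonneg hnn).1 hns'
  obtain ⟨K, hK⟩ := (ht.eventually_ge_atTop (4 * C * 2 ^ N)).exists
  have hM : N ≤ N + K := by omega
  obtain ⟨s0, hs0⟩ := lower P I p hm hi hv hp hsum N (by omega) hle' (N + K) hM
  refine ⟨Icc s0 (s0 + 2 / ((N + K : ℕ) : ℝ)), measurableSet_Icc, ?_⟩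
  have h1 := prod_grow p N (by omega) hle' (N + K) hM
  have h2 : ∑ j ∈ Finset.Ico N (N + K), (1 / ((j : ℝ) + 1) - p j) =
      ∑ n ∈ Finset.range K, (1 / (((n + N : ℕ) : ℝ) + 1) - p (n + N)) := by
    rw [Finset.sum_Ico_eq_sum_range]
    simp only [add_tsub_cancel_left]
    refine Finset.sum_congr rfl fun n _ => ?_
    rw [add_comm N n]
  rw [h2] at h1
  obtain ⟨π, hπ⟩ : ∃ π, π = ∏ j ∈ Finset.Ico N (N + K), (1 - p j) := ⟨_, rfl⟩
  rw [← hπ] at h1 hs0
  have hM0 : (0 : ℝ) < ((N + K : ℕ) : ℝ) := by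
    have : 0 < N + K := by omega
    exact_mod_cast this
  rw [Real.volume_Icc, ← ofReal_measureReal (s := {ω | _}), add_sub_cancel_left]
  have h3 : (C : ENNReal) = ENNReal.ofReal C := by simp
  rw [h3, ← ENNReal.ofReal_mul C.coe_nonneg]
  rw [ENNReal.ofReal_lt_ofReal_iff_of_nonneg (by positivity)]
  refine lt_of_lt_of_le ?_ hs0
  have h4 : (0 : ℝ) < 2 ^ N := by positivity
  have h5 : (1 / 2 : ℝ) ^ N = 1 / 2 ^ N := by rw [one_div_pow]
  rw [h5, mul_div_assoc', div_lt_iff₀ hM0]
  have h6 : 1 / 2 ^ N * π / 2 * ((N + K : ℕ) : ℝ) = (((N + K : ℕ) : ℝ) * π) / (2 * 2 ^ N) := by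
    field_simp
  rw [h6, lt_div_iff₀ (by positivity)]
  nlinarith

end

end KS6_63.RecHarm
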